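import Pool.Agent.Q250.NP.Core

/-!
# Narrow progressions in sifted sets: a residue class, in every short interval
-/

set_option autoImplicit false

namespace Pool.Agent.Q154.NP

open Finset Filter
open Pool.Agent.Q253.Thin (SysZ IS VZ_low VZ_nonneg)
open Pool.Agent.Y843.HS (VV)
open Pool.Agent.Q250.NP (types length_le)

/-- for every prime `p` there is `n ≡ a (mod M)` such that `p` divides none of the `n + h i` -/
def Adm {m : ℕ} (M a : ℕ) (h : Fin m → ℕ) : Prop :=
  ∀ p : ℕ, p.Prime → ∃ x : ℕ, ∀ i, ¬ p ∣ M * x + a + h i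

/-- the classes of the `x` modulo `p` where `p` divides one of the `M x + a + h i` -/
def Z {m : ℕ} (M a : ℕ) (h : Fin m → ℕ) (p : ℕ) : Finset ℕ :=
  (range p).filter (fun x => ∃ i, p ∣ M * x + a + h i)

/-- the product of `1 - |Z p| / p` over the primes `p ≤ X` -/
noncomputable def dens {m : ℕ} (M a : ℕ) (h : Fin m → ℕ) (X : ℕ) : ℝ :=
  ∏ p ∈ (Ioc 0 X).filter Nat.Prime, (1 - ((Z M a h p).card : ℝ) / p)

open Classical in
/-- the `n ≡ a (mod M)` in `(u, v]` such that all prime factors of all the `n + h i` are larger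
than `X ^ (1/t)` -/
noncomputable def good {m : ℕ} (t X M a : ℕ) (h : Fin m → ℕ) (u v : ℕ) : Finset ℕ :=
  (Ioc u v).filter (fun n => n % M = a ∧
    ∀ i, ∀ p : ℕ, p.Prime → p ∣ n + h i → (X : ℝ) ^ (1 / (t : ℝ)) < p)

theorem dens_eq {m : ℕ} (M a : ℕ) (h : Fin m → ℕ) (X : ℕ) : dens M a h X = VV (Z M a h) 0 X := rfl

theorem div_mod {p M b x : ℕ} : p ∣ M * (x % p) + b ↔ p ∣ M * x + b := by
  have h : M * x + b ≡ M * (x % p) + b [MOD p] :=
    (Nat.ModEq.mul_left M (Nat.mod_modEq x p).symm).add_right b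
  exact (h.dvd_iff (dvd_refl p)).symm

theorem mem_Z {m : ℕ} (M a : ℕ) (h : Fin m → ℕ) {p : ℕ} (hp : 0 < p) (x : ℕ) :
    x % p ∈ Z M a h p ↔ ∃ i, p ∣ M * x + a + h i := by
  unfold Z
  rw [mem_filter, mem_range]
  constructor
  · rintro ⟨_, i, hi⟩
    refine ⟨i, ?_⟩
    rw [add_assoc] at hi ⊢
    exact div_mod.1 hi
  · rintro ⟨i, hi⟩
    refine ⟨Nat.mod_lt _ hp, i, ?_⟩
    rw [add_assoc] at hi ⊢
    exact div_mod.2 hi

theorem sys {m : ℕ} {M a : ℕ} {h : Fin m → ℕ} (hA : Adm M a h) : SysZ m (Z M a h) := by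
  classical
  constructor
  · intro p hp
    have h1 : Z M a h p ⊆ (univ : Finset (Fin m)).biUnion
        (fun i => (range p).filter (fun x => p ∣ M * x + a + h i)) := by
      intro x hx
      unfold Z at hx
      rw [mem_filter] at hx
      obtain ⟨h1, i, hi⟩ := hx
      rw [mem_biUnion]
      exact ⟨i, mem_univ _, mem_filter.2 ⟨h1, hi⟩⟩
    refine (card_le_card h1).trans (card_biUnion_le.trans ?_)
    calc _ ≤ ∑ _i : Fin m, 1 := by
          apply sum_le_sum
          intro i _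
          rw [card_le_one]
          intro x hx y hy
          rw [mem_filter, mem_range] at hx hy
          have hpa : ¬ p ∣ M := by
            intro hpa
            have h2 : p ∣ a + h i := by
              have h3 := hx.2
              rw [add_assoc] at h3
              exact (Nat.dvd_add_right (hpa.mul_right x)).1 h3
            obtain ⟨x₀, hx₀⟩ := hA p hp
            apply hx₀ i
            rw [add_assoc]
            exact dvd_add (hpa.mul_right _) h2
          have h3 : M * x + (a + h i) ≡ M * y + (a + h i) [MOD p] := by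
            rw [← add_assoc, ← add_assoc]
            exact ((Nat.modEq_zero_iff_dvd).2 hx.2).trans ((Nat.modEq_zero_iff_dvd).2 hy.2).symm
          have h4 : M * x ≡ M * y [MOD p] := Nat.ModEq.add_right_cancel' _ h3
          have h5 : x ≡ y [MOD p] :=
            Nat.ModEq.cancel_left_of_coprime ((Nat.Prime.coprime_iff_not_dvd hp).2 hpa) h4
          exact h5.eq_of_lt_of_lt hx.1 hy.1
      _ = m := by simp
  · intro p hp
    obtain ⟨x, hx⟩ := hA p hp
    have h1 : Z M a h p ⊂ range p := by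
      refine ⟨filter_subset _ _, fun hsub => ?_⟩
      have h2 := hsub (mem_range.2 (Nat.mod_lt x hp.pos))
      rw [mem_Z M a h hp.pos] at h2
      obtain ⟨i, hi⟩ := h2
      exact hx i hi
    have := card_lt_card h1
    rwa [card_range] at this
  · intro p _ c hc
    unfold Z at hc
    rw [mem_filter, mem_range] at hc
    exact hc.1

theorem good_eq {m : ℕ} (t X M a : ℕ) (h : Fin m → ℕ) (u v : ℕ) (ha : a < M) (hu : M ≤ u) :
    good t X M a h u v =
      (IS t X ((u - a) / M) ((v - a) / M) (Z M a h)).image (fun x => M * x + a) := by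
  classical
  have hM : 0 < M := by omega
  ext n
  unfold good IS
  rw [mem_filter, mem_image, mem_Ioc]
  constructor
  · rintro ⟨⟨h1, h2⟩, h3, h4⟩
    have h5 : M * (n / M) + a = n := by
      have := Nat.div_add_mod n M
      rw [h3] at this
      exact this
    refine ⟨n / M, ?_, h5⟩
    rw [mem_filter, mem_Ioc]
    refine ⟨⟨?_, ?_⟩, ?_⟩
    · rw [Nat.div_lt_iff_lt_mul hM, mul_comm]
      omega
    · rw [Nat.le_div_iff_mul_le hM, mul_comm]
      omega
    · intro q hq hqX hmem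
      rw [mem_Z M a h hq.pos] at hmem
      obtain ⟨i, hi⟩ := hmem
      rw [h5] at hi
      exact absurd (h4 i q hq hi) (not_lt.2 hqX)
  · rintro ⟨x, hx, rfl⟩
    rw [mem_filter, mem_Ioc] at hx
    obtain ⟨⟨h1, h2⟩, h3⟩ := hx
    rw [Nat.div_lt_iff_lt_mul hM, mul_comm] at h1
    rw [Nat.le_div_iff_mul_le hM, mul_comm] at h2
    have hx1 : 1 ≤ x := by
      rcases Nat.eq_zero_or_pos x with h0 | h0
      · rw [h0] at h1
        omega
      · exact h0
    have hMx : M * 1 ≤ M * x := Nat.mul_le_mul_left M hx1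
    refine ⟨⟨by omega, by omega⟩, ?_, ?_⟩
    · rw [Nat.mul_add_mod]
      exact Nat.mod_eq_of_lt ha
    · intro i p hp hpd
      by_contra hcon
      push Not at hcon
      exact h3 p hp hcon ((mem_Z M a h hp.pos x).2 ⟨i, hpd⟩)

theorem good_card {m : ℕ} (t X M a : ℕ) (h : Fin m → ℕ) (u v : ℕ) (ha : a < M) (hu : M ≤ u) :
    (good t X M a h u v).card = (IS t X ((u - a) / M) ((v - a) / M) (Z M a h)).card := by
  classical
  rw [good_eq t X M a h u v ha hu, card_image_of_injective]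
  intro x y hxy
  simp only at hxy
  have hM : 0 < M := by omega
  exact Nat.eq_of_mul_eq_mul_left hM (by omega)

/-- the windows of the arguments -/
theorem win {M a u v X : ℕ} {θ : ℝ} (ha : a < M) (hu : M ≤ u) (hv : v ≤ u + X)
    (hX : 2 * (M : ℝ) ≤ θ * X) (huv : θ * X ≤ (v : ℝ) - u) :
    (v - a) / M ≤ (u - a) / M + X ∧
      ((v : ℝ) - u) / (2 * M) ≤ (((v - a) / M : ℕ) : ℝ) - (((u - a) / M : ℕ) : ℝ) := by
  have hM : 0 < M := by omega
  have hMr : (0 : ℝ) < M := by exact_mod_cast hM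
  have huv' : (u : ℝ) ≤ v := by linarith
  have huv'' : u ≤ v := by exact_mod_cast huv'
  constructor
  · have h1 : v - a ≤ (u - a) + X * M := by
      have : X ≤ X * M := Nat.le_mul_of_pos_right X hM
      omega
    calc (v - a) / M ≤ ((u - a) + X * M) / M := Nat.div_le_div_right h1
      _ = (u - a) / M + X := Nat.add_mul_div_right _ _ hM
  · have h1 : v - a < M * ((v - a) / M + 1) := Nat.lt_mul_div_succ _ hM
    have h2 : M * ((u - a) / M) ≤ u - a := Nat.mul_div_le _ _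
    have h3 : ((v - a : ℕ) : ℝ) < M * ((((v - a) / M : ℕ) : ℝ) + 1) := by exact_mod_cast h1
    have h4 : (M : ℝ) * (((u - a) / M : ℕ) : ℝ) ≤ ((u - a : ℕ) : ℝ) := by exact_mod_cast h2
    rw [Nat.cast_sub (by omega)] at h3 h4
    rw [div_le_iff₀ (by positivity)]
    nlinarith

/-- **The machine for a residue class**, in every interval. -/
theorem aff (m : ℕ) (hm : 1 ≤ m) : ∃ t : ℕ, 1 ≤ t ∧ ∀ M : ℕ, 1 ≤ M → ∃ c : ℝ, 0 < c ∧
    (∀ θ : ℝ, 0 < θ → ∃ X₀ : ℕ, ∀ X : ℕ, X₀ ≤ X → ∀ (a : ℕ) (h : Fin m → ℕ), a < M → Adm M a h →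
      ∀ u v : ℕ, M ≤ u → v ≤ u + X → θ * X ≤ (v : ℝ) - u →
        c / Real.log X ^ m ≤ dens M a h X ∧
        c * (((v : ℝ) - u) * dens M a h X) ≤ ((good t X M a h u v).card : ℝ)) ∧
    (∀ (L : ℕ) (θ δ : ℝ), 0 < θ → 0 < δ → ∃ D X₀ : ℕ, ∀ X : ℕ, X₀ ≤ X →
      ∀ (a : ℕ) (h : Fin m → ℕ), a < M → Adm M a h →
      ∀ u v : ℕ, M ≤ u → v ≤ u + X → θ * X ≤ (v : ℝ) - u →
      ∀ S ⊆ good t X M a h u v, δ * ((good t X M a h u v).card : ℝ) ≤ S.card →
        ∃ n d : ℕ, 1 ≤ d ∧ (d : ℝ) ≤ Real.log X ^ D ∧ ∀ j < L, n + j * d ∈ S) ∧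
    (∀ (L Kt : ℕ) (θ : ℝ), 0 < θ → ∃ D X₀ : ℕ, ∀ X : ℕ, X₀ ≤ X →
      ∀ (a : ℕ) (h : Fin m → ℕ), a < M → Adm M a h →
      ∀ u v : ℕ, M ≤ u → v ≤ u + X → θ * X ≤ (v : ℝ) - u →
      ∀ (γ : Type) (K : Finset γ) (τ : ℕ → γ), K.card ≤ Kt → K.Nonempty →
        (∀ n ∈ good t X M a h u v, τ n ∈ K) →
        ∃ κ ∈ K, ∃ n d : ℕ, 1 ≤ d ∧ (d : ℝ) ≤ Real.log X ^ D ∧
          ∀ j < L, n + j * d ∈ good t X M a h u v ∧ τ (n + j * d) = κ) := by
  classical
  obtain ⟨t, ht, c, hc, h1, h2, h3⟩ := types m hm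
  obtain ⟨c', hc', hlow⟩ := VZ_low m hm
  refine ⟨t, ht, fun M hM => ?_⟩
  have hMr : (0 : ℝ) < M := by exact_mod_cast hM
  -- the scale
  have hscale : ∀ θ : ℝ, 0 < θ → ∃ X₁ : ℕ, ∀ X : ℕ, X₁ ≤ X → 2 * (M : ℝ) ≤ θ * X ∧
      (M : ℝ) ≤ Real.log X ∧ 2 ≤ X := by
    intro θ hθ
    obtain ⟨X₁, hX₁⟩ := exists_nat_ge (max (2 * M / θ) (Real.exp M))
    refine ⟨max X₁ 2, fun X hX => ⟨?_, ?_, (le_max_right _ _).trans hX⟩⟩
    · have h4 : 2 * M / θ ≤ X := (le_max_left _ _).trans (hX₁.trans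
        (by exact_mod_cast (le_max_left _ _).trans hX))
      rw [div_le_iff₀ hθ] at h4
      linarith
    · have h4 : Real.exp M ≤ X := (le_max_right _ _).trans (hX₁.trans
        (by exact_mod_cast (le_max_left _ _).trans hX))
      have h5 := Real.log_le_log (Real.exp_pos _) h4
      rwa [Real.log_exp] at h5
  refine ⟨min (c / (2 * M)) c', by positivity, ?_, ?_, ?_⟩
  · intro θ hθ
    obtain ⟨X₀, hX₀⟩ := h1 (θ / (2 * M)) (by positivity)
    obtain ⟨X₁, hX₁⟩ := hscale θ hθ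
    refine ⟨max X₀ X₁, fun X hX a h ha hA u v hu hv huv => ?_⟩
    obtain ⟨g1, g2, g3⟩ := hX₁ X ((le_max_right _ _).trans hX)
    obtain ⟨w1, w2⟩ := win ha hu hv g1 huv
    have hV := VZ_nonneg (sys hA) 0 X
    have hlog : 0 < Real.log X := lt_of_lt_of_le hMr g2
    constructor
    · rw [dens_eq]
      refine le_trans ?_ (hlow X g3 _ (sys hA))
      exact div_le_div_of_nonneg_right (min_le_right _ _) (by positivity)
    · rw [good_card t X M a h u v ha hu, dens_eq]
      have hw : θ / (2 * M) * X ≤ (((v - a) / M : ℕ) : ℝ) - (((u - a) / M : ℕ) : ℝ) := by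
        refine le_trans ?_ w2
        rw [div_mul_eq_mul_div]
        exact div_le_div_of_nonneg_right huv (by positivity)
      refine le_trans ?_ (hX₀ X ((le_max_left _ _).trans hX) _ (sys hA) _ _ hw)
      have huv0 : 0 ≤ (v : ℝ) - u := le_trans (by positivity) huv
      calc min (c / (2 * M)) c' * (((v : ℝ) - u) * VV (Z M a h) 0 X)
          ≤ c / (2 * M) * (((v : ℝ) - u) * VV (Z M a h) 0 X) :=
            mul_le_mul_of_nonneg_right (min_le_left _ _) (mul_nonneg huv0 hV)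
        _ = c * ((((v : ℝ) - u) / (2 * M)) * VV (Z M a h) 0 X) := by ring
        _ ≤ _ := by
            apply mul_le_mul_of_nonneg_left _ hc.le
            exact mul_le_mul_of_nonneg_right w2 hV
  · intro L θ δ hθ hδ
    obtain ⟨D, X₀, hX₀⟩ := h2 L (θ / (2 * M)) δ (by positivity) hδ
    obtain ⟨X₁, hX₁⟩ := hscale θ hθ
    refine ⟨D + 1, max X₀ X₁, fun X hX a h ha hA u v hu hv huv S hS hSc => ?_⟩
    obtain ⟨g1, g2, g3⟩ := hX₁ X ((le_max_right _ _).trans hX)
    obtain ⟨w1, w2⟩ := win ha hu hv g1 huv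
    have hw : θ / (2 * M) * X ≤ (((v - a) / M : ℕ) : ℝ) - (((u - a) / M : ℕ) : ℝ) := by
      refine le_trans ?_ w2
      rw [div_mul_eq_mul_div]
      exact div_le_div_of_nonneg_right huv (by positivity)
    obtain ⟨n, d, hd1, hd2, h4⟩ := hX₀ X ((le_max_left _ _).trans hX) _ (sys hA) _ _ w1 hw
      ((IS t X ((u - a) / M) ((v - a) / M) (Z M a h)).filter (fun x => M * x + a ∈ S))
      (filter_subset _ _) (by
        rw [← good_card t X M a h u v ha hu]
        refine hSc.trans ?_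
        have h5 : S ⊆ ((IS t X ((u - a) / M) ((v - a) / M) (Z M a h)).filter
            (fun x => M * x + a ∈ S)).image (fun x => M * x + a) := by
          intro s hs
          have h6 := hS hs
          rw [good_eq t X M a h u v ha hu, mem_image] at h6
          obtain ⟨x, hx, rfl⟩ := h6
          exact mem_image_of_mem _ (mem_filter.2 ⟨hx, hs⟩)
        exact_mod_cast (card_le_card h5).trans card_image_le)
    refine ⟨M * n + a, M * d, Nat.mul_pos hM hd1, ?_, fun j hj => ?_⟩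
    · push_cast
      have hlog : 0 < Real.log X := lt_of_lt_of_le hMr g2
      rw [pow_succ, mul_comm]
      exact mul_le_mul hd2 g2 hMr.le (by positivity)
    · have h5 := (mem_filter.1 (h4 j hj)).2
      rw [show M * n + a + j * (M * d) = M * (n + j * d) + a by ring]
      exact h5
  · intro L Kt θ hθ
    obtain ⟨D, X₀, hX₀⟩ := h3 L Kt (θ / (2 * M)) (by positivity)
    obtain ⟨X₁, hX₁⟩ := hscale θ hθ
    refine ⟨D + 1, max X₀ X₁, fun X hX a h ha hA u v hu hv huv γ K τ hKt hK hτ => ?_⟩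
    obtain ⟨g1, g2, g3⟩ := hX₁ X ((le_max_right _ _).trans hX)
    obtain ⟨w1, w2⟩ := win ha hu hv g1 huv
    have hw : θ / (2 * M) * X ≤ (((v - a) / M : ℕ) : ℝ) - (((u - a) / M : ℕ) : ℝ) := by
      refine le_trans ?_ w2
      rw [div_mul_eq_mul_div]
      exact div_le_div_of_nonneg_right huv (by positivity)
    obtain ⟨κ, hκ, n, d, hd1, hd2, h4⟩ := hX₀ X ((le_max_left _ _).trans hX) _ (sys hA) _ _ w1 hw
      γ K (fun x => τ (M * x + a)) hKt hK (fun x hx => hτ _ (by
        rw [good_eq t X M a h u v ha hu]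
        exact mem_image_of_mem _ hx))
    refine ⟨κ, hκ, M * n + a, M * d, Nat.mul_pos hM hd1, ?_, fun j hj => ?_⟩
    · push_cast
      have hlog : 0 < Real.log X := lt_of_lt_of_le hMr g2
      rw [pow_succ, mul_comm]
      exact mul_le_mul hd2 g2 hMr.le (by positivity)
    · obtain ⟨h5, h6⟩ := h4 j hj
      rw [show M * n + a + j * (M * d) = M * (n + j * d) + a by ring]
      refine ⟨?_, h6⟩
      rw [good_eq t X M a h u v ha hu]
      exact mem_image_of_mem _ h5

end Pool.Agent.Q154.NP
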