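import Pool.Agent.Q154.NP.Aff

/-!
# The sifted set and its part in a residue class
-/

set_option autoImplicit false

namespace Pool.Agent.Q154.NP

open Finset Filter
open Pool.Agent.Q253.Thin (SysZ IS int_upper)
open Pool.Agent.Y843.HS (VV)

theorem Adm.one {m M a : ℕ} {h : Fin m → ℕ} (hA : Adm M a h) : Adm 1 0 h := by
  intro p hp
  obtain ⟨x, hx⟩ := hA p hp
  refine ⟨M * x + a, fun i => ?_⟩
  rw [one_mul, add_zero]
  exact hx i

theorem Z_card_le {m M a : ℕ} {h : Fin m → ℕ} (hA : Adm M a h) {p : ℕ} (hp : p.Prime) :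
    (Z M a h p).card ≤ (Z 1 0 h p).card := by
  classical
  by_cases hpM : p ∣ M
  · have h0 : Z M a h p = ∅ := by
      rw [eq_empty_iff_forall_notMem]
      intro x hx
      unfold Z at hx
      rw [mem_filter] at hx
      obtain ⟨_, i, hi⟩ := hx
      rw [add_assoc] at hi
      have h1 := (Nat.dvd_add_right (hpM.mul_right x)).1 hi
      obtain ⟨x₀, hx₀⟩ := hA p hp
      apply hx₀ i
      rw [add_assoc]
      exact dvd_add (hpM.mul_right _) h1
    rw [h0]
    simp
  · apply card_le_card_of_injOn (fun x => (M * x + a) % p)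
    · intro x hx
      rw [Finset.mem_coe] at hx ⊢
      unfold Z at hx
      rw [mem_filter] at hx
      obtain ⟨_, i, hi⟩ := hx
      have h1 := (mem_Z 1 0 h hp.pos (M * x + a)).2 ⟨i, by rwa [one_mul, add_zero]⟩
      exact h1
    · intro x hx y hy hxy
      rw [Finset.mem_coe] at hx hy
      unfold Z at hx hy
      rw [mem_filter, mem_range] at hx hy
      simp only at hxy
      have h4 : M * x ≡ M * y [MOD p] := Nat.ModEq.add_right_cancel' _ hxy
      have h5 : x ≡ y [MOD p] :=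
        Nat.ModEq.cancel_left_of_coprime ((Nat.Prime.coprime_iff_not_dvd hp).2 hpM) h4
      exact h5.eq_of_lt_of_lt hx.1 hy.1

theorem dens_le {m M a : ℕ} {h : Fin m → ℕ} (hA : Adm M a h) (X : ℕ) :
    dens 1 0 h X ≤ dens M a h X := by
  unfold dens
  apply Finset.prod_le_prod
  · intro p hp
    have hpp := (mem_filter.1 hp).2
    have hp0 : (0 : ℝ) < p := by exact_mod_cast hpp.pos
    rw [sub_nonneg, div_le_one hp0]
    exact_mod_cast ((sys hA.one).loc p hpp).le
  · intro p hp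
    have hpp := (mem_filter.1 hp).2
    have hp0 : (0 : ℝ) < p := by exact_mod_cast hpp.pos
    have h1 : ((Z M a h p).card : ℝ) / p ≤ ((Z 1 0 h p).card : ℝ) / p :=
      div_le_div_of_nonneg_right (by exact_mod_cast Z_card_le hA hpp) hp0.le
    linarith

/-- **The part in a residue class has positive relative density.** -/
theorem cmp (m t M : ℕ) (hm : 1 ≤ m) (ht : 1 ≤ t) (_ : 1 ≤ M) {c : ℝ} (hc : 0 < c)
    (hlow : ∀ θ : ℝ, 0 < θ → ∃ X₀ : ℕ, ∀ X : ℕ, X₀ ≤ X → ∀ (a : ℕ) (h : Fin m → ℕ), a < M → Adm M a h →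
      ∀ u v : ℕ, M ≤ u → v ≤ u + X → θ * X ≤ (v : ℝ) - u →
        c * (((v : ℝ) - u) * dens M a h X) ≤ ((good t X M a h u v).card : ℝ)) :
    ∃ C : ℝ, 0 < C ∧ ∀ θ : ℝ, 0 < θ → ∃ X₀ : ℕ, ∀ X : ℕ, X₀ ≤ X → ∀ (a : ℕ) (h : Fin m → ℕ), a < M →
      Adm M a h → ∀ u v : ℕ, M ≤ u → v ≤ u + X → θ * X ≤ (v : ℝ) - u →
        ((good t X 1 0 h u v).card : ℝ) ≤ C * ((good t X M a h u v).card : ℝ) := by
  classical
  obtain ⟨C, hC, hup⟩ := int_upper m t hm ht
  refine ⟨C / c, by positivity, fun θ hθ => ?_⟩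
  obtain ⟨X₀, hX₀⟩ := hup θ hθ
  obtain ⟨X₁, hX₁⟩ := hlow θ hθ
  refine ⟨max X₀ X₁, fun X hX a h ha hA u v hu hv huv => ?_⟩
  have h1 := hX₀ X ((le_max_left _ _).trans hX) (Z 1 0 h) (sys hA.one) u v huv
  have h2 := hX₁ X ((le_max_right _ _).trans hX) a h ha hA u v hu hv huv
  have h3 : (good t X 1 0 h u v).card = (IS t X u v (Z 1 0 h)).card := by
    have h4 := good_card t X 1 0 h u v (by norm_num) (by omega)
    rw [Nat.sub_zero, Nat.sub_zero, Nat.div_one, Nat.div_one] at h4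
    exact h4
  rw [h3]
  have h5 : 0 ≤ (v : ℝ) - u := le_trans (by positivity) huv
  have h6 := dens_le hA X
  rw [← dens_eq] at h1
  calc ((IS t X u v (Z 1 0 h)).card : ℝ) ≤ C * (((v : ℝ) - u) * dens 1 0 h X) := h1
    _ ≤ C * (((v : ℝ) - u) * dens M a h X) := by
        apply mul_le_mul_of_nonneg_left _ hC.le
        exact mul_le_mul_of_nonneg_left h6 h5
    _ = C / c * (c * (((v : ℝ) - u) * dens M a h X)) := by field_simp
    _ ≤ _ := mul_le_mul_of_nonneg_left h2 (by positivity)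

end Pool.Agent.Q154.NP
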