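import Pool.Agent.Q154.NP.Pow
import Mathlib.NumberTheory.PrimeCounting
import Mathlib.Data.Nat.ChineseRemainder

/-!
# A residue class in which `p` and `p + g` are the only candidates for primes in `[p, p + g]`
-/

set_option autoImplicit false

namespace Pool.Agent.Q154.NP

open Finset

theorem exists_class {g : ℕ} (hg : Even g) (hg0 : 0 < g) : ∃ M a : ℕ, 1 ≤ M ∧ a < M ∧
    Adm M a ![0, g] ∧ ∀ j, 0 < j → j < g → ∃ q : ℕ, q.Prime ∧ q ∣ M ∧ q ∣ a + j := by
  classical
  obtain ⟨s, hs⟩ : ∃ s : ℕ → ℕ, s = fun j => if j = 0 then 2 else Nat.nth Nat.Prime (g + j) :=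
    ⟨_, rfl⟩
  obtain ⟨r, hr⟩ : ∃ r : ℕ → ℕ, r = fun j => if j = 0 then 1 else s j - j := ⟨_, rfl⟩
  have hs0 : s 0 = 2 := by rw [hs]; simp
  have hs1 : ∀ j, 0 < j → s j = Nat.nth Nat.Prime (g + j) := by
    intro j hj
    rw [hs]
    simp [hj.ne']
  have hsg : ∀ j, 0 < j → g + j < s j := by
    intro j hj
    rw [hs1 j hj]
    have := Nat.add_two_le_nth_prime (g + j)
    omega
  have hsp : ∀ j, (s j).Prime := by
    intro j
    rcases Nat.eq_zero_or_pos j with h | h
    · rw [h, hs0]
      exact Nat.prime_two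
    · rw [hs1 j h]
      exact Nat.prime_nth_prime _
  have hinj : ∀ i j, i ≠ j → s i ≠ s j := by
    intro i j hij heq
    rcases Nat.eq_zero_or_pos i with h | h
    · rcases Nat.eq_zero_or_pos j with h' | h'
      · omega
      · have := hsg j h'
        rw [h, hs0] at heq
        have hg2 : 2 ≤ g := by
          obtain ⟨e, he⟩ := hg
          omega
        omega
    · rcases Nat.eq_zero_or_pos j with h' | h'
      · have := hsg i h
        rw [h', hs0] at heq
        have hg2 : 2 ≤ g := by
          obtain ⟨e, he⟩ := hg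
          omega
        omega
      · rw [hs1 i h, hs1 j h'] at heq
        have h3 := Nat.nth_injective Nat.infinite_setOfPred_prime heq
        omega
  have pp : Set.Pairwise ((range g : Finset ℕ) : Set ℕ) (Function.onFun Nat.Coprime s) := by
    intro i _ j _ hij
    exact (Nat.coprime_primes (hsp i) (hsp j)).2 (hinj i j hij)
  have hne : ∀ i ∈ range g, s i ≠ 0 := fun i _ => (hsp i).ne_zero
  obtain ⟨a, halt, hamod⟩ : ∃ a : ℕ, a < ∏ i ∈ range g, s i ∧ ∀ i ∈ range g, a ≡ r i [MOD s i] :=
    ⟨Nat.chineseRemainderOfFinset r s (range g) hne pp,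
      Nat.chineseRemainderOfFinset_lt_prod r s hne pp,
      (Nat.chineseRemainderOfFinset r s (range g) hne pp).2⟩
  obtain ⟨M, hM⟩ : ∃ M, M = ∏ i ∈ range g, s i := ⟨_, rfl⟩
  rw [← hM] at halt
  have hdvd : ∀ i, i < g → s i ∣ M := by
    intro i hi
    rw [hM]
    exact dvd_prod_of_mem s (mem_range.2 hi)
  have h2 : a % 2 = 1 := by
    have h3 := hamod 0 (mem_range.2 hg0)
    rw [hs0, hr] at h3
    simpa [Nat.ModEq] using h3
  have hj : ∀ j, 0 < j → j < g → s j ∣ a + j := by
    intro j hj0 hjg
    have h3 := hamod j (mem_range.2 hjg)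
    have h4 : r j = s j - j := by rw [hr]; simp [hj0.ne']
    rw [h4] at h3
    have h5 := h3.add_right j
    rw [Nat.sub_add_cancel (by have := hsg j hj0; omega)] at h5
    exact (Nat.modEq_zero_iff_dvd).1 (h5.trans (by simp [Nat.ModEq]))
  refine ⟨M, a, by omega, halt, ?_, fun j hj0 hjg => ⟨s j, hsp j, hdvd j hjg, hj j hj0 hjg⟩⟩
  -- admissibility
  have hM2 : 2 ∣ M := by
    have := hdvd 0 hg0
    rwa [hs0] at this
  intro p hp
  by_cases hpM : p ∣ M
  · refine ⟨0, fun i => ?_⟩
    rw [mul_zero, zero_add]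
    rw [hM, Prime.dvd_finsetProd_iff hp.prime] at hpM
    obtain ⟨j, hjr, hpj⟩ := hpM
    rw [Nat.prime_dvd_prime_iff_eq hp (hsp j)] at hpj
    rw [mem_range] at hjr
    rcases Nat.eq_zero_or_pos j with h | h
    · rw [h, hs0] at hpj
      subst hpj
      obtain ⟨e, he⟩ := hg
      fin_cases i
      · simp only [Matrix.cons_val_zero, Fin.zero_eta, add_zero]
        omega
      · simp only [Matrix.cons_val_one, Fin.mk_one]
        show ¬ 2 ∣ a + g
        omega
    · have h3 := hj j h hjr
      have h4 := hsg j h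
      rw [← hpj] at h3 h4
      fin_cases i
      · simp only [Matrix.cons_val_zero, Fin.zero_eta, add_zero]
        intro h5
        have h6 := (Nat.dvd_add_right h5).1 h3
        exact absurd (Nat.le_of_dvd h h6) (by omega)
      · show ¬ p ∣ a + g
        intro h5
        have h6 : p ∣ (a + g) - (a + j) := Nat.dvd_sub h5 h3
        rw [Nat.add_sub_add_left] at h6
        exact absurd (Nat.le_of_dvd (by omega) h6) (by omega)
  · have hp3 : 3 ≤ p := by
      rcases Nat.lt_or_ge p 3 with h | h
      · have h3 : p = 2 := by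
          have := hp.two_le
          omega
        rw [h3] at hpM
        exact absurd hM2 hpM
      · exact h
    by_contra hcon
    push Not at hcon
    have hcon' : ∀ x : ℕ, p ∣ M * x + a ∨ p ∣ M * x + a + g := by
      intro x
      obtain ⟨i, hi⟩ := hcon x
      fin_cases i
      · left
        simpa using hi
      · right
        exact hi
    have key : ∀ x y b : ℕ, x < y → y ≤ x + 2 → p ∣ M * x + b → p ∣ M * y + b → False := by
      intro x y b hxy hyx h5 h6
      have h7 : p ∣ (M * y + b) - (M * x + b) := Nat.dvd_sub h6 h5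
      rw [Nat.add_sub_add_right, ← Nat.mul_sub] at h7
      rcases (Nat.Prime.dvd_mul hp).1 h7 with h8 | h8
      · exact hpM h8
      · exact absurd (Nat.le_of_dvd (by omega) h8) (by omega)
    have key' : ∀ x y : ℕ, x < y → y ≤ x + 2 → p ∣ M * x + a + g → p ∣ M * y + a + g → False := by
      intro x y hxy hyx h5 h6
      rw [add_assoc] at h5 h6
      exact key x y _ hxy hyx h5 h6
    rcases hcon' 0 with h0 | h0
    · rcases hcon' 1 with h1 | h1
      · exact key 0 1 _ (by omega) (by omega) h0 h1
      · rcases hcon' 2 with h2' | h2'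
        · exact key 0 2 _ (by omega) (by omega) h0 h2'
        · exact key' 1 2 (by omega) (by omega) h1 h2'
    · rcases hcon' 1 with h1 | h1
      · rcases hcon' 2 with h2' | h2'
        · exact key 1 2 _ (by omega) (by omega) h1 h2'
        · exact key' 0 2 (by omega) (by omega) h0 h2'
      · exact key' 0 1 (by omega) (by omega) h0 h1

end Pool.Agent.Q154.NP
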