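import Pool.Agent.Q154.NP.Cmp

/-!
# Narrow progressions between consecutive powers
-/

set_option autoImplicit false

namespace Pool.Agent.Q154.NP

open Finset Filter
open Pool.Agent.Q250.NP (length_le)

theorem pow_gap {k n : ℕ} (hk : 2 ≤ k) (hn : 1 ≤ n) :
    n ^ k + 2 * n ^ (k - 1) + 1 ≤ (n + 1) ^ k := by
  obtain ⟨f, rfl⟩ : ∃ f, k = f + 2 := ⟨k - 2, by omega⟩
  have h1 : n ^ f ≤ (n + 1) ^ f := Nat.pow_le_pow_left (Nat.le_succ n) f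
  have h2 : 1 ≤ n ^ f := Nat.one_le_pow _ _ hn
  have h3 : (n + 1) ^ (f + 2) = (n + 1) ^ f * ((n + 1) * (n + 1)) := by ring
  have h4 : n ^ (f + 2) + 2 * n ^ (f + 1) + n ^ f = n ^ f * ((n + 1) * (n + 1)) := by ring
  have h5 := Nat.mul_le_mul_right ((n + 1) * (n + 1)) h1
  rw [show f + 2 - 1 = f + 1 from rfl]
  omega

theorem pow_gap' {k n : ℕ} (hk : 2 ≤ k) : n ^ k + (n + 1) ^ (k - 1) ≤ (n + 1) ^ k := by
  obtain ⟨f, rfl⟩ : ∃ f, k = f + 2 := ⟨k - 2, by omega⟩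
  rw [show f + 2 - 1 = f + 1 from rfl]
  have h1 : n ^ (f + 1) ≤ (n + 1) ^ (f + 1) := Nat.pow_le_pow_left (Nat.le_succ n) _
  have h2 := Nat.mul_le_mul_right n h1
  have h3 : (n + 1) ^ (f + 2) = (n + 1) ^ (f + 1) * n + (n + 1) ^ (f + 1) := by ring
  have h4 : n ^ (f + 2) = n ^ (f + 1) * n := by ring
  omega

open Classical in
/-- the `p ≡ a (mod M)` with `n ^ k < p` and `p + h i < (n+1) ^ k` for all `i`, such that all prime factors of all the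
`p + h i` are larger than `((n+1) ^ k - n ^ k) ^ (1/t)` -/
noncomputable def btw {m : ℕ} (k t M a : ℕ) (h : Fin m → ℕ) (n : ℕ) : Finset ℕ :=
  (Ioo (n ^ k) ((n + 1) ^ k)).filter (fun p => p % M = a ∧ ∀ i, p + h i < (n + 1) ^ k ∧
    ∀ q : ℕ, q.Prime → q ∣ p + h i → (((n + 1) ^ k - n ^ k : ℕ) : ℝ) ^ (1 / (t : ℝ)) < q)

theorem btw_eq {m : ℕ} (hm : 1 ≤ m) (k n t M a : ℕ) (h : Fin m → ℕ) :
    btw k t M a h n =
      good t ((n + 1) ^ k - n ^ k) M a h (n ^ k) ((n + 1) ^ k - 1 - univ.sup h) := by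
  classical
  have : Nonempty (Fin m) := ⟨⟨0, by omega⟩⟩
  obtain ⟨i₀, _, hi₀⟩ := Finset.exists_mem_eq_sup (univ : Finset (Fin m)) univ_nonempty h
  ext p
  unfold btw good
  rw [mem_filter, mem_filter, mem_Ioo, mem_Ioc]
  constructor
  · rintro ⟨⟨h1, h2⟩, h3, h4⟩
    have h5 := (h4 i₀).1
    rw [← hi₀] at h5
    exact ⟨⟨h1, by omega⟩, h3, fun i => (h4 i).2⟩
  · rintro ⟨⟨h1, h2⟩, h3, h4⟩
    refine ⟨⟨h1, by omega⟩, h3, fun i => ⟨?_, h4 i⟩⟩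
    have h5 : h i ≤ univ.sup h := Finset.le_sup (mem_univ i)
    omega

/-- the facts on the window -/
theorem window {m : ℕ} {k n M : ℕ} {h : Fin m → ℕ} (hk : 2 ≤ k) (hn : 1 ≤ n)
    (hM : M ≤ n) (hh : ∀ i, h i ≤ n ^ (k - 1)) :
    M ≤ n ^ k ∧ (n + 1) ^ k - 1 - univ.sup h ≤ n ^ k + ((n + 1) ^ k - n ^ k) ∧
    1 / 3 * (((n + 1) ^ k - n ^ k : ℕ) : ℝ) ≤ (((n + 1) ^ k - 1 - univ.sup h : ℕ) : ℝ) - ((n ^ k : ℕ) : ℝ) ∧
    n ≤ (n + 1) ^ k - n ^ k ∧ 2 * n ^ (k - 1) + 1 ≤ (n + 1) ^ k - n ^ k ∧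
    (n + 1) ^ (k - 1) ≤ (n + 1) ^ k - n ^ k := by
  have g1 := pow_gap hk hn
  have g2 := pow_gap' (n := n) hk
  have hH : univ.sup h ≤ n ^ (k - 1) := Finset.sup_le (fun i _ => hh i)
  have hP : n ≤ n ^ (k - 1) := Nat.le_self_pow (by omega) n
  have hP' : n ≤ n ^ k := Nat.le_self_pow (by omega) n
  refine ⟨hM.trans hP', by omega, ?_, by omega, by omega, by omega⟩
  have h1 : (n + 1) ^ k - n ^ k + 3 * n ^ k ≤ 3 * ((n + 1) ^ k - 1 - univ.sup h) := by omega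
  have h2 : (((n + 1) ^ k - n ^ k : ℕ) : ℝ) + 3 * ((n ^ k : ℕ) : ℝ) ≤
      3 * (((n + 1) ^ k - 1 - univ.sup h : ℕ) : ℝ) := by exact_mod_cast h1
  linarith

/-- `log X ≤ 2 k log n ≤ log ^ 2 n` -/
theorem log_window {k n : ℕ} (hk : 2 ≤ k) (hn : 2 ≤ n) (hL : 2 * (k : ℝ) ≤ Real.log n) :
    Real.log (((n + 1) ^ k - n ^ k : ℕ) : ℝ) ≤ 2 * k * Real.log n ∧
    Real.log (((n + 1) ^ k - n ^ k : ℕ) : ℝ) ≤ Real.log n ^ 2 := by
  have hn0 : (0 : ℝ) < n := by exact_mod_cast (by omega : 0 < n)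
  have h0 : 1 ≤ (n + 1) ^ k - n ^ k := by
    have := pow_gap hk (show 1 ≤ n by omega)
    omega
  have h1 : (n + 1) ^ k - n ^ k ≤ n ^ (2 * k) := by
    have h2 : n + 1 ≤ n ^ 2 := by nlinarith
    calc (n + 1) ^ k - n ^ k ≤ (n + 1) ^ k := Nat.sub_le _ _
      _ ≤ (n ^ 2) ^ k := Nat.pow_le_pow_left h2 k
      _ = n ^ (2 * k) := by rw [← pow_mul]
  have h2 : Real.log (((n + 1) ^ k - n ^ k : ℕ) : ℝ) ≤ 2 * k * Real.log n := by
    have h3 : (((n + 1) ^ k - n ^ k : ℕ) : ℝ) ≤ ((n ^ (2 * k) : ℕ) : ℝ) := by exact_mod_cast h1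
    have h4 := Real.log_le_log (by exact_mod_cast h0) h3
    rw [Nat.cast_pow, Real.log_pow] at h4
    push_cast at h4
    linarith
  refine ⟨h2, h2.trans ?_⟩
  have h5 : 0 ≤ Real.log n := by positivity
  nlinarith

/-- the number of the prime factors -/
theorem btw_len {m : ℕ} {k t M a n : ℕ} {h : Fin m → ℕ} (ht : 1 ≤ t) (hk : 2 ≤ k) (hn : 1 ≤ n) {p : ℕ}
    (hp : p ∈ btw k t M a h n) (i : Fin m) :
    1 ≤ (p + h i).primeFactorsList.length ∧ (p + h i).primeFactorsList.length ≤ 2 * t := by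
  classical
  unfold btw at hp
  rw [mem_filter, mem_Ioo] at hp
  obtain ⟨⟨h1, h2⟩, _, h4⟩ := hp
  have hk1 : 1 ≤ n ^ k := Nat.one_le_pow _ _ hn
  constructor
  · rw [Nat.one_le_iff_ne_zero, Ne, List.length_eq_zero_iff, Nat.primeFactorsList_eq_nil]
    omega
  · have hg := pow_gap' (n := n) hk
    have hg2 := pow_gap hk hn
    have hX2 : 2 ≤ (n + 1) ^ k - n ^ k := by
      have : 1 ≤ n ^ (k - 1) := Nat.one_le_pow _ _ hn
      omega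
    have hX : (1 : ℝ) < (((n + 1) ^ k - n ^ k : ℕ) : ℝ) := by exact_mod_cast (by omega : 1 < (n + 1) ^ k - n ^ k)
    have ht0 : (0 : ℝ) < t := by exact_mod_cast ht
    have h5 := length_le (n := p + h i) (z := (((n + 1) ^ k - n ^ k : ℕ) : ℝ) ^ (1 / (t : ℝ)))
      (X := (((n + 1) ^ k - n ^ k : ℕ) : ℝ)) (by omega) t 2
      (Real.one_lt_rpow hX (by positivity)) ?_ (by positivity) ?_ (h4 i).2
    · rwa [mul_comm] at h5
    · rw [← Real.rpow_natCast, ← Real.rpow_mul (by positivity), one_div, inv_mul_cancel₀ ht0.ne',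
        Real.rpow_one]
    · have h6 : p + h i ≤ ((n + 1) ^ k - n ^ k) ^ 2 := by
        have h7 : (n + 1) ^ (k - 1) ≤ (n + 1) ^ k - n ^ k := by omega
        calc p + h i ≤ (n + 1) ^ k := (h4 i).1.le
          _ ≤ (n + 1) ^ ((k - 1) * 2) := Nat.pow_le_pow_right (Nat.succ_pos n) (by omega)
          _ = ((n + 1) ^ (k - 1)) ^ 2 := by rw [pow_mul]
          _ ≤ _ := Nat.pow_le_pow_left h7 2
      exact_mod_cast h6

/-- **Between consecutive powers.** -/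
theorem pow_main (m : ℕ) (hm : 1 ≤ m) : ∃ t : ℕ, 1 ≤ t ∧ ∀ k : ℕ, 2 ≤ k → ∀ M : ℕ, 1 ≤ M → ∃ c : ℝ, 0 < c ∧
    (∃ N₀ : ℕ, ∀ n : ℕ, N₀ ≤ n → ∀ (a : ℕ) (h : Fin m → ℕ), a < M → Adm M a h →
      (∀ i, h i ≤ n ^ (k - 1)) →
        c * (n : ℝ) ^ (k - 1) / Real.log n ^ m ≤ ((btw k t M a h n).card : ℝ)) ∧
    (∀ (L : ℕ) (δ : ℝ), 0 < δ → ∃ D N₀ : ℕ, ∀ n : ℕ, N₀ ≤ n →
      ∀ (a : ℕ) (h : Fin m → ℕ), a < M → Adm M a h → (∀ i, h i ≤ n ^ (k - 1)) →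
      ∀ S ⊆ btw k t M a h n, δ * ((btw k t M a h n).card : ℝ) ≤ S.card →
        ∃ x d : ℕ, 1 ≤ d ∧ (d : ℝ) ≤ Real.log n ^ D ∧ ∀ j < L, x + j * d ∈ S) ∧
    (∀ (L K : ℕ), ∃ D N₀ : ℕ, ∀ n : ℕ, N₀ ≤ n →
      ∀ (a : ℕ) (h : Fin m → ℕ), a < M → Adm M a h → (∀ i, h i ≤ n ^ (k - 1)) →
      ∀ χ : ℕ → Fin K, ∃ (s : Fin m → ℕ) (κ : Fin K), (∀ i, 1 ≤ s i ∧ s i ≤ 2 * t) ∧
        ∃ x d : ℕ, 1 ≤ d ∧ (d : ℝ) ≤ Real.log n ^ D ∧ ∀ j < L, x + j * d ∈ btw k t M a h n ∧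
          (∀ i, (x + j * d + h i).primeFactorsList.length = s i) ∧ χ (x + j * d) = κ) ∧
    (∃ (C : ℝ) (N₀ : ℕ), 0 < C ∧ ∀ n : ℕ, N₀ ≤ n → ∀ (a : ℕ) (h : Fin m → ℕ), a < M → Adm M a h →
      (∀ i, h i ≤ n ^ (k - 1)) →
        ((btw k t 1 0 h n).card : ℝ) ≤ C * ((btw k t M a h n).card : ℝ)) := by
  classical
  obtain ⟨t, ht, haff⟩ := aff m hm
  refine ⟨t, ht, fun k hk M hM => ?_⟩
  obtain ⟨c, hc, a1, a2, a3⟩ := haff M hM
  obtain ⟨C₁, hC₁, a4⟩ := cmp m t M hm ht hM hc (fun θ hθ => by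
    obtain ⟨X₀, hX₀⟩ := a1 θ hθ
    exact ⟨X₀, fun X hX a h ha hA u v hu hv huv => (hX₀ X hX a h ha hA u v hu hv huv).2⟩)
  have hk0 : (0 : ℝ) < k := by exact_mod_cast (by omega : 0 < k)
  obtain ⟨N₁, hN₁⟩ : ∃ N₁ : ℕ, ∀ n : ℕ, N₁ ≤ n → 2 ≤ n ∧ M ≤ n ∧ 2 * (k : ℝ) ≤ Real.log n := by
    obtain ⟨N₁, hN₁⟩ := exists_nat_ge (Real.exp (2 * k))
    refine ⟨max N₁ (max 2 M), fun n hn => ⟨?_, ?_, ?_⟩⟩
    · exact ((le_max_left _ _).trans (le_max_right _ _)).trans hn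
    · exact ((le_max_right _ _).trans (le_max_right _ _)).trans hn
    · have h1 : Real.exp (2 * k) ≤ n := hN₁.trans (by exact_mod_cast (le_max_left _ _).trans hn)
      have h2 := Real.log_le_log (Real.exp_pos _) h1
      rwa [Real.log_exp] at h2
  have hconv : ∀ {n D : ℕ} {y : ℝ}, 2 ≤ n → 2 * (k : ℝ) ≤ Real.log n →
      y ≤ Real.log (((n + 1) ^ k - n ^ k : ℕ) : ℝ) ^ D → y ≤ Real.log n ^ (2 * D) := by
    intro n D y h1 h2 h3
    have h4 := (log_window hk h1 h2).2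
    refine h3.trans ?_
    rw [pow_mul]
    exact pow_le_pow_left₀ (Real.log_natCast_nonneg _) h4 D
  refine ⟨c * c / (3 * (2 * k) ^ m), by positivity, ?_, ?_, ?_, ?_⟩
  · obtain ⟨X₀, hX₀⟩ := a1 (1 / 3) (by norm_num)
    refine ⟨max X₀ N₁, fun n hn a h ha hA hh => ?_⟩
    obtain ⟨g1, g2, g3⟩ := hN₁ n ((le_max_right _ _).trans hn)
    obtain ⟨w1, w2, w3, w4, w5, w6⟩ := window hk (by omega) g2 hh
    obtain ⟨h1, h2⟩ := hX₀ _ (((le_max_left _ _).trans hn).trans w4) a h ha hA _ _ w1 w2 w3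
    rw [← btw_eq hm] at h2
    refine le_trans ?_ h2
    obtain ⟨l1, l2⟩ := log_window hk g1 g3
    have hlog : 0 < Real.log n := by linarith
    have hlogX : 0 < Real.log (((n + 1) ^ k - n ^ k : ℕ) : ℝ) := by
      apply Real.log_pos
      exact_mod_cast (by omega : 1 < (n + 1) ^ k - n ^ k)
    have h3 : c / (2 * k * Real.log n) ^ m ≤ dens M a h ((n + 1) ^ k - n ^ k) := by
      refine le_trans ?_ h1
      exact div_le_div_of_nonneg_left hc.le (by positivity) (pow_le_pow_left₀ hlogX.le l1 m)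
    have h4 : (n : ℝ) ^ (k - 1) / 3 ≤ (((n + 1) ^ k - 1 - univ.sup h : ℕ) : ℝ) - ((n ^ k : ℕ) : ℝ) := by
      refine le_trans ?_ w3
      have h5 : n ^ (k - 1) ≤ (n + 1) ^ k - n ^ k := by omega
      have h6 : (n : ℝ) ^ (k - 1) ≤ (((n + 1) ^ k - n ^ k : ℕ) : ℝ) := by exact_mod_cast h5
      linarith
    calc c * c / (3 * (2 * k) ^ m) * (n : ℝ) ^ (k - 1) / Real.log n ^ m
        = c * ((n : ℝ) ^ (k - 1) / 3 * (c / (2 * k * Real.log n) ^ m)) := by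
          have e1 : (2 * (k : ℝ) * Real.log n) ^ m = (2 * (k : ℝ)) ^ m * Real.log n ^ m := mul_pow _ _ _
          have e2 : (2 * (k : ℝ)) ^ m ≠ 0 := by positivity
          have e3 : Real.log n ^ m ≠ 0 := by positivity
          rw [e1]
          generalize (2 * (k : ℝ)) ^ m = A at *
          generalize Real.log n ^ m = B at *
          field_simp
      _ ≤ _ := by
          apply mul_le_mul_of_nonneg_left _ hc.le
          exact mul_le_mul h4 h3 (by positivity) (le_trans (by positivity) h4)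
  · intro L δ hδ
    obtain ⟨D, X₀, hX₀⟩ := a2 L (1 / 3) δ (by norm_num) hδ
    refine ⟨2 * D, max X₀ N₁, fun n hn a h ha hA hh S hS hSc => ?_⟩
    obtain ⟨g1, g2, g3⟩ := hN₁ n ((le_max_right _ _).trans hn)
    obtain ⟨w1, w2, w3, w4, w5, w6⟩ := window hk (by omega) g2 hh
    rw [btw_eq hm] at hS hSc
    obtain ⟨x, d, hd1, hd2, h4⟩ := hX₀ _ (((le_max_left _ _).trans hn).trans w4) a h ha hA _ _ w1 w2 w3
      S hS hSc
    exact ⟨x, d, hd1, hconv g1 g3 hd2, h4⟩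
  · intro L K
    obtain ⟨D, X₀, hX₀⟩ := a3 L ((Fintype.piFinset (fun _ : Fin m => Icc 1 (2 * t))) ×ˢ
      (univ : Finset (Fin K))).card (1 / 3) (by norm_num)
    refine ⟨2 * D, max X₀ N₁, fun n hn a h ha hA hh χ => ?_⟩
    obtain ⟨g1, g2, g3⟩ := hN₁ n ((le_max_right _ _).trans hn)
    obtain ⟨w1, w2, w3, w4, w5, w6⟩ := window hk (by omega) g2 hh
    obtain ⟨κ, hκ, x, d, hd1, hd2, h4⟩ := hX₀ _ (((le_max_left _ _).trans hn).trans w4) a h ha hA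
      _ _ w1 w2 w3 ((Fin m → ℕ) × Fin K) _
      (fun x => (fun i => (x + h i).primeFactorsList.length, χ x)) le_rfl
      (by
        refine Finset.Nonempty.product ?_ ⟨χ 0, mem_univ _⟩
        exact Fintype.piFinset_nonempty.2 (fun _ => ⟨1, mem_Icc.2 ⟨le_rfl, by omega⟩⟩))
      (fun x hx => by
        rw [← btw_eq hm] at hx
        rw [mem_product]
        refine ⟨?_, mem_univ _⟩
        rw [Fintype.mem_piFinset]
        intro i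
        rw [mem_Icc]
        exact btw_len ht hk (by omega) hx i)
    rw [mem_product, Fintype.mem_piFinset] at hκ
    refine ⟨κ.1, κ.2, fun i => mem_Icc.1 (hκ.1 i), x, d, hd1, hconv g1 g3 hd2, fun j hj => ?_⟩
    obtain ⟨h5, h6⟩ := h4 j hj
    rw [← btw_eq hm] at h5
    refine ⟨h5, fun i => ?_, ?_⟩
    · rw [← h6]
    · rw [← h6]
  · obtain ⟨X₀, hX₀⟩ := a4 (1 / 3) (by norm_num)
    refine ⟨C₁, max X₀ N₁, hC₁, fun n hn a h ha hA hh => ?_⟩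
    obtain ⟨g1, g2, g3⟩ := hN₁ n ((le_max_right _ _).trans hn)
    obtain ⟨w1, w2, w3, w4, w5, w6⟩ := window hk (by omega) g2 hh
    rw [btw_eq hm, btw_eq hm]
    exact hX₀ _ (((le_max_left _ _).trans hn).trans w4) a h ha hA _ _ w1 w2 w3

end Pool.Agent.Q154.NP
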