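import Pool.Agent.Q284.NP.Stm

/-!
Lemma job VAL of project NP (helper284).
-/

set_option autoImplicit false

namespace Pool.Agent.Q154.NP

open Pool.Agent.Q284.NP

theorem val_aux {L : Type} [Field L] (k : ℕ) (x y u i : L) (hx : x * i = 1) (hy : y ≠ 0)
    (hu : u = x ^ (k + 2) * y⁻¹) (h : y ^ (k + 2) - y = x ^ (k + 3)) :
    u * (u ^ k * i ^ ((k + 2) * (k + 1)) + u ^ (k + 1) * i ^ (k ^ 2 + 3 * k + 1)) = 1 := by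
  have h1 : ∀ m : ℕ, x ^ m * i ^ m = 1 := fun m => by rw [← mul_pow, hx, one_pow]
  have h2 : u ^ (k + 1) * i ^ ((k + 2) * (k + 1)) = (y⁻¹) ^ (k + 1) := by
    rw [hu, mul_pow, ← pow_mul]
    calc x ^ ((k + 2) * (k + 1)) * y⁻¹ ^ (k + 1) * i ^ ((k + 2) * (k + 1)) =
        (x ^ ((k + 2) * (k + 1)) * i ^ ((k + 2) * (k + 1))) * y⁻¹ ^ (k + 1) := by ring
      _ = y⁻¹ ^ (k + 1) := by rw [h1, one_mul]
  have h3 : u ^ (k + 2) * i ^ (k ^ 2 + 3 * k + 1) = x ^ (k + 3) * (y⁻¹) ^ (k + 2) := by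
    rw [hu, mul_pow, ← pow_mul, show (k + 2) * (k + 2) = (k + 3) + (k ^ 2 + 3 * k + 1) by ring, pow_add]
    calc x ^ (k + 3) * x ^ (k ^ 2 + 3 * k + 1) * y⁻¹ ^ (k + 2) * i ^ (k ^ 2 + 3 * k + 1) =
        x ^ (k + 3) * y⁻¹ ^ (k + 2) * (x ^ (k ^ 2 + 3 * k + 1) * i ^ (k ^ 2 + 3 * k + 1)) := by ring
      _ = _ := by rw [h1, mul_one]
  have h4 : y * y⁻¹ = 1 := mul_inv_cancel₀ hy
  calc u * (u ^ k * i ^ ((k + 2) * (k + 1)) + u ^ (k + 1) * i ^ (k ^ 2 + 3 * k + 1)) =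
      u ^ (k + 1) * i ^ ((k + 2) * (k + 1)) + u ^ (k + 2) * i ^ (k ^ 2 + 3 * k + 1) := by ring
    _ = (y⁻¹) ^ (k + 1) + (y ^ (k + 2) - y) * (y⁻¹) ^ (k + 2) := by rw [h2, h3, h]
    _ = (y * y⁻¹) ^ (k + 2) + (1 - y * y⁻¹) * (y⁻¹) ^ (k + 1) := by ring
    _ = 1 := by rw [h4]; ring

theorem val : S_VAL := by
  intro p _ L _ V hV x y h
  by_cases hxV : x ∈ V
  · exact Or.inl hxV
  refine Or.inr ?_
  have hx0 : x ≠ 0 := fun h0 => hxV (h0 ▸ V.zero_mem)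
  refine ⟨hx0, ?_⟩
  have hi : x⁻¹ ∈ V := (hV x).resolve_left hxV
  obtain ⟨k, rfl⟩ : ∃ k, p = k + 2 := ⟨p - 2, by have := (Fact.out : p.Prime).two_le; omega⟩
  have hy : y ≠ 0 := by
    rintro rfl
    rw [zero_pow (by omega), sub_zero] at h
    exact hx0 (pow_eq_zero_iff (by omega) |>.1 h.symm)
  by_contra hw
  have hu : (y / x ^ (k + 2))⁻¹ ∈ V := (hV _).resolve_left hw
  obtain ⟨u, hud⟩ : ∃ u, u = (y / x ^ (k + 2))⁻¹ := ⟨_, rfl⟩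
  rw [← hud] at hu
  have hu2 : u = x ^ (k + 2) * y⁻¹ := by
    rw [hud, inv_div, div_eq_mul_inv]
  have h1 := val_aux k x y u x⁻¹ (mul_inv_cancel₀ hx0) hy hu2 h
  have h2 : y / x ^ (k + 2) = u ^ k * x⁻¹ ^ ((k + 2) * (k + 1)) + u ^ (k + 1) * x⁻¹ ^ (k ^ 2 + 3 * k + 1) := by
    have h3 : (y / x ^ (k + 2)) * u = 1 := by
      rw [hud]
      exact mul_inv_cancel₀ (div_ne_zero hy (pow_ne_zero _ hx0))
    calc y / x ^ (k + 2) = (y / x ^ (k + 2)) *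
        (u * (u ^ k * x⁻¹ ^ ((k + 2) * (k + 1)) + u ^ (k + 1) * x⁻¹ ^ (k ^ 2 + 3 * k + 1))) := by rw [h1, mul_one]
      _ = ((y / x ^ (k + 2)) * u) *
        (u ^ k * x⁻¹ ^ ((k + 2) * (k + 1)) + u ^ (k + 1) * x⁻¹ ^ (k ^ 2 + 3 * k + 1)) := by ring
      _ = _ := by rw [h3, one_mul]
  exact hw (h2 ▸ V.add_mem (V.mul_mem (V.pow_mem hu _) (V.pow_mem hi _))
    (V.mul_mem (V.pow_mem hu _) (V.pow_mem hi _)))

end Pool.Agent.Q154.NP
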